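import Pool.Agent.Lib.Sims.M.Final

/-!
Sims' question has a negative answer: for every free group of rank at least two and every choice of
Hall basic commutators, the normal closure of the basic commutators of weight `8` is a proper
subgroup of `γ_8`. Mathlib's `lowerCentralSeries` starts at index `0`, so `γ_8` has index `7`.
-/

namespace Pool.Agent.Results.MP_841f14_al.Counterexample

open Pool.Agent.Lib.MP_841f14_al

theorem result (X : Type*) [Nontrivial X] :
    (∃ lt : FreeMagma X → FreeMagma X → Prop, IsHallOrder lt) ∧
      ∀ lt : FreeMagma X → FreeMagma X → Prop, IsHallOrder lt →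
        Subgroup.normalClosure
            {w | ∃ t : FreeMagma X, IsBasic lt t ∧ t.length = 8 ∧ ev FreeGroup.of t = w} <
          (⊤ : Subgroup (FreeGroup X)).lowerCentralSeries 7 :=
  ⟨Pool.Agent.Lib.Sims.exists_hall X,
    fun lt hlt => Pool.Agent.Lib.Sims.M.br Pool.Agent.Lib.Sims.M.final lt hlt⟩

end Pool.Agent.Results.MP_841f14_al.Counterexample
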