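import Pool.Agent.Lib.MP_841f14_al.Final

/-!
Sims' question modulo every term of the lower central series of the second derived subgroup:
for a free group `F` of any rank, any choice of Hall basic commutators, every `n ≥ 7` and every `k`,
`γ_n(F) ≤ N_n · γ_{k+1}(F'')`.
Mathlib's `lowerCentralSeries` starts at index `0`, so `γ_n` has index `n - 1`.
-/

namespace Pool.Agent.Results.MP_841f14_al.NilpByMetabelian

open Pool.Agent.Lib.MP_841f14_al

theorem result {X : Type*} (lt : FreeMagma X → FreeMagma X → Prop) (hlt : IsHallOrder lt)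
    (n : ℕ) (hn : 7 ≤ n) (k : ℕ) :
    (⊤ : Subgroup (FreeGroup X)).lowerCentralSeries (n - 1) ≤
      Subgroup.normalClosure
          {w | ∃ t : FreeMagma X, IsBasic lt t ∧ t.length = n ∧ ev FreeGroup.of t = w} ⊔
        (derivedSeries (FreeGroup X) 2).lowerCentralSeries k :=
  free_main hlt hn k

end Pool.Agent.Results.MP_841f14_al.NilpByMetabelian
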